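import Pool.Agent.P8H24.PR.Stm
import Pool.Agent.P8H78.PG.Nf

/-!
# Packages NFR and NFR2 of project PR
-/

set_option autoImplicit false

open Finset Filter Topology

namespace Pool.Agent.P8H78.PR

open Pool.Agent.P8H24.PR Pool.Agent.P8H78.PG
open Pool.Agent.W726.NS (RedAlg)

/-- the vector states which are needed -/
def Vec {G A : Type} [Group G] [CStarAlgebra A] (u : G → A) (L : Subgroup G) : Prop :=
  ∀ (I : Finset (Finset ℕ)), I.Nonempty → ∀ (W : Finset ℕ → G) (C : Finset ℕ → ℂ),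
    (∀ i ∈ I, ‖C i‖ = 1) → (∀ i ∈ I, ∀ j ∈ I, (W i)⁻¹ * W j ∈ L → i = j) →
    ∃ ρ : A →L[ℂ] ℂ, ‖ρ‖ ≤ 1 ∧ ∀ g,
      ρ (u g) = (I.card : ℂ)⁻¹ * ∑ i ∈ I, ∑ j ∈ I, star (C i) * C j *
        Set.indicator (L : Set G) (fun _ => (1 : ℂ)) ((W i)⁻¹ * (g * W j))

theorem vsol_ker {G M : Type} [Group G] [AddCommGroup M] {K : Subgroup G} (hK : VSol K)
    {q : G → M} (hq : ∀ x ∈ K, ∀ y ∈ K, q (x * y) = q x + q y) : VSol (kerK K q hq) := by
  obtain ⟨H, h1, h2, h3⟩ := hK
  refine ⟨H ⊓ kerK K q hq, inf_le_right, ?_, ?_⟩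
  · rw [Subgroup.inf_relIndex_right]
    intro h
    have h4 : kerK K q hq ≤ K := fun x hx => hx.1
    exact h2 (Subgroup.relIndex_eq_zero_of_le_right h4 h)
  · exact Group.isSolvable_of_isSolvable_injective (Subgroup.inclusion_injective inf_le_left)

theorem get_vec (hF : S_FOL) (hV : S_VEC) {G A M : Type} [Group G] [CStarAlgebra A]
    [AddCommGroup M] {u : G → A} {τ : A →L[ℂ] ℂ} (hu : RedAlg u τ)
    (hm : ∀ g h, u (g * h) = u g * u h) {K : Subgroup G} (hK : VSol K)
    {q : G → M} (hq : ∀ x ∈ K, ∀ y ∈ K, q (x * y) = q x + q y) : Vec u (kerK K q hq) :=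
  fun I hI W C h1 h2 => hV G A u τ hu hm _ (hF G _ (vsol_ker hK hq)) _ I hI W C h1 h2

theorem nf_core {Γ A M : Type} [Group Γ] [CStarAlgebra A] [AddCommGroup M] (u : Γ → A)
    (K : Subgroup Γ) (q : Γ → M) (hq : ∀ x ∈ K, ∀ y ∈ K, q (x * y) = q x + q y)
    (hvec : Vec u (kerK K q hq)) (n : ℕ) (w : ℕ → Γ) (hw : ∀ j, w j ∈ K)
    (hrel : ∀ a : ℕ → ℤ, (∀ j, |a j| ≤ 2) → ∑ j ∈ range n, a j • q (w j) = 0 → ∀ j < n, a j = 0)
    (c : ℕ → ℂ) (hc : ∀ j, ‖c j‖ = 1) :
    ∃ ρ : A →L[ℂ] ℂ, ‖ρ‖ ≤ 1 ∧ ∀ j < n, 1 / 2 ≤ (c j * ρ (u (w j))).re := by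
  classical
  choose W hWK hWq using exists_W K q hq w hw
  let C : Finset ℕ → ℂ := fun S => ∏ i ∈ S, c i
  have hC1 : ∀ S, ‖C S‖ = 1 := by
    intro S
    show ‖∏ i ∈ S, c i‖ = 1
    rw [norm_prod]
    exact Finset.prod_eq_one fun i _ => hc i
  obtain ⟨ρ, hρ, hρg⟩ := hvec (powerset (range n)) ⟨∅, by simp⟩ W C
    (fun S _ => hC1 S) (by
      intro S hS T hT h
      rw [mem_powerset] at hS hT
      rw [mem_kerK (hWK S) (hWK T), hWq, hWq] at h
      have h1 := hrel (fun i => (if i ∈ T then (1 : ℤ) else 0) - (if i ∈ S then 1 else 0))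
        (fun i => by split_ifs <;> simp) (by rw [sum_rel hS hT, h, sub_self])
      ext i
      by_cases hi : i < n
      · have h2 := h1 i hi
        by_cases hiS : i ∈ S <;> by_cases hiT : i ∈ T <;> simp [hiS, hiT] at h2 ⊢
      · exact ⟨fun h3 => absurd (mem_range.1 (hS h3)) hi, fun h3 => absurd (mem_range.1 (hT h3)) hi⟩)
  refine ⟨ρ, hρ, fun j hj => ?_⟩
  have hcond : ∀ S ∈ powerset (range n), ∀ T ∈ powerset (range n),
      ((W S)⁻¹ * (w j * W T) ∈ kerK K q hq ↔ j ∉ T ∧ S = insert j T) := by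
    intro S hS T hT
    rw [mem_powerset] at hS hT
    rw [mem_kerK (hWK S) (K.mul_mem (hw j) (hWK T)), hq _ (hw j) _ (hWK T), hWq, hWq]
    constructor
    · intro h
      have h1 := hrel (fun i => (if i = j then (1 : ℤ) else 0) + (if i ∈ T then 1 else 0) -
        (if i ∈ S then 1 else 0)) (fun i => by split_ifs <;> simp)
        (by rw [sum_rel' hj hS hT, h, sub_self])
      have h2 : ∀ i, i < n → ((if i = j then (1 : ℤ) else 0) + (if i ∈ T then 1 else 0) -
        (if i ∈ S then 1 else 0)) = 0 := h1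
      have hjT : j ∉ T := by
        intro hc
        have h3 := h2 j hj
        rw [if_pos rfl, if_pos hc] at h3
        split_ifs at h3 <;> omega
      refine ⟨hjT, ?_⟩
      ext i
      rw [mem_insert]
      by_cases hi : i < n
      · have h3 := h2 i hi
        by_cases hij : i = j
        · subst hij
          rw [if_pos rfl, if_neg hjT] at h3
          by_cases hiS : i ∈ S
          · simp [hiS]
          · rw [if_neg hiS] at h3
            omega
        · rw [if_neg hij] at h3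
          by_cases hiS : i ∈ S <;> by_cases hiT : i ∈ T <;> simp [hiS, hiT, hij] at h3 ⊢
      · constructor
        · intro h3
          exact absurd (mem_range.1 (hS h3)) hi
        · rintro (rfl | h3)
          · exact absurd hj hi
          · exact absurd (mem_range.1 (hT h3)) hi
    · rintro ⟨h1, rfl⟩
      rw [sum_insert h1]
  have hsum : ∑ S ∈ powerset (range n), ∑ T ∈ powerset (range n), star (C S) * C T *
      (Set.indicator (kerK K q hq : Set Γ) (fun _ => (1 : ℂ)) ((W S)⁻¹ * (w j * W T))) = 2 ^ (n - 1) * star (c j) := by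
    rw [Finset.sum_comm]
    have h1 : ∀ T ∈ powerset (range n), ∑ S ∈ powerset (range n), star (C S) * C T *
        (Set.indicator (kerK K q hq : Set Γ) (fun _ => (1 : ℂ)) ((W S)⁻¹ * (w j * W T))) =
        if j ∉ T then star (c j) else 0 := by
      intro T hT
      by_cases hjT : j ∈ T
      · rw [if_neg (not_not.2 hjT)]
        refine Finset.sum_eq_zero fun S hS => ?_
        rw [Set.indicator_of_notMem, mul_zero]
        intro h
        exact ((hcond S hS T hT).1 h).1 hjT
      · rw [if_pos hjT]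
        have hins : insert j T ∈ powerset (range n) := by
          rw [mem_powerset] at hT ⊢
          exact insert_subset (mem_range.2 hj) hT
        rw [Finset.sum_eq_single (insert j T)]
        · rw [Set.indicator_of_mem ((hcond _ hins T hT).2 ⟨hjT, rfl⟩), mul_one]
          show star (∏ i ∈ insert j T, c i) * (∏ i ∈ T, c i) = star (c j)
          rw [prod_insert hjT, star_mul', mul_assoc, star_mul_self_one (hC1 T), mul_one]
        · intro S hS hne
          rw [Set.indicator_of_notMem, mul_zero]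
          intro h
          exact hne ((hcond S hS T hT).1 h).2
        · intro h
          exact absurd hins h
    rw [Finset.sum_congr rfl h1, ← Finset.sum_filter, Finset.sum_const, nsmul_eq_mul]
    have h2 : (powerset (range n)).filter (fun T => j ∉ T) = powerset ((range n).erase j) := by
      ext T
      rw [mem_filter, mem_powerset, mem_powerset, subset_erase]
    rw [h2, card_powerset, card_erase_of_mem (mem_range.2 hj), card_range]
    push_cast
    rfl
  rw [hρg, hsum, card_powerset, card_range]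
  have hn : (2 : ℂ) ^ n = 2 ^ (n - 1) * 2 := by
    rw [← pow_succ]
    congr 1
    omega
  have h2 : (2 : ℂ) ^ (n - 1) ≠ 0 := pow_ne_zero _ two_ne_zero
  have h3 : c j * ((((2 ^ n : ℕ) : ℂ))⁻¹ * (2 ^ (n - 1) * star (c j))) = 1 / 2 := by
    push_cast
    rw [hn, mul_inv]
    calc c j * (((2 : ℂ) ^ (n - 1))⁻¹ * 2⁻¹ * (2 ^ (n - 1) * star (c j)))
        = (((2 : ℂ) ^ (n - 1))⁻¹ * 2 ^ (n - 1)) * (star (c j) * c j) * 2⁻¹ := by ring
      _ = 1 / 2 := by
        rw [inv_mul_cancel₀ h2, star_mul_self_one (hc j)]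
        norm_num
  rw [h3]
  norm_num

theorem nf2_core {Γ A M : Type} [Group Γ] [CStarAlgebra A] [AddCommGroup M] (u : Γ → A)
    (K : Subgroup Γ) (q : Γ → M) (hq : ∀ x ∈ K, ∀ y ∈ K, q (x * y) = q x + q y)
    (hvec : Vec u (kerK K q hq)) (n : ℕ) (w : ℕ → Γ) (hw : ∀ j, w j ∈ K)
    (h2q : ∀ j, (2 : ℤ) • q (w j) = 0)
    (hrel : ∀ a : ℕ → ℤ, (∀ j, a j = 0 ∨ a j = 1) → ∑ j ∈ range n, a j • q (w j) = 0 →
      ∀ j < n, a j = 0)
    (c : ℕ → ℂ) (hc : ∀ j, c j = 1 ∨ c j = -1) :
    ∃ ρ : A →L[ℂ] ℂ, ‖ρ‖ ≤ 1 ∧ ∀ j < n, 1 / 2 ≤ (c j * ρ (u (w j))).re := by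
  classical
  choose W hWK hWq using exists_W K q hq w hw
  -- relations have even coefficients
  have heven : ∀ a : ℕ → ℤ, ∑ i ∈ range n, a i • q (w i) = 0 → ∀ i < n, a i % 2 = 0 := by
    intro a ha
    refine hrel (fun i => a i % 2) (fun i => by
      rcases Int.emod_two_eq_zero_or_one (a i) with h | h
      · exact Or.inl h
      · exact Or.inr h) ?_
    rw [← ha]
    refine Finset.sum_congr rfl fun i _ => ?_
    have h1 : a i = a i % 2 + (a i / 2) * 2 := by
      have := Int.emod_add_mul_ediv (a i) 2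
      linarith
    conv_rhs => rw [h1, add_smul, mul_smul, h2q, smul_zero, add_zero]
  have hcsq : ∀ i, c i * c i = 1 := by
    intro i
    rcases hc i with h | h <;> rw [h] <;> norm_num
  have hcstar : ∀ i, star (c i) = c i := by
    intro i
    rcases hc i with h | h <;> rw [h] <;> simp
  let C : Finset ℕ → ℂ := fun S => ∏ i ∈ S, c i
  have hCsq : ∀ S, C S * C S = 1 := by
    intro S
    show (∏ i ∈ S, c i) * ∏ i ∈ S, c i = 1
    rw [← Finset.prod_mul_distrib]
    exact Finset.prod_eq_one fun i _ => hcsq i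
  have hCstar : ∀ S, star (C S) = C S := by
    intro S
    show star (∏ i ∈ S, c i) = ∏ i ∈ S, c i
    rw [star_prod]
    exact Finset.prod_congr rfl fun i _ => hcstar i
  have hC1 : ∀ S, ‖C S‖ = 1 := by
    intro S
    show ‖∏ i ∈ S, c i‖ = 1
    rw [norm_prod]
    refine Finset.prod_eq_one fun i _ => ?_
    rcases hc i with h | h <;> rw [h] <;> simp
  obtain ⟨ρ, hρ, hρg⟩ := hvec (powerset (range n)) ⟨∅, by simp⟩ W C
    (fun S _ => hC1 S) (by
      intro S hS T hT h
      rw [mem_powerset] at hS hT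
      rw [mem_kerK (hWK S) (hWK T), hWq, hWq] at h
      have h1 := heven (fun i => (if i ∈ T then (1 : ℤ) else 0) - (if i ∈ S then 1 else 0))
        (by rw [sum_rel hS hT, h, sub_self])
      ext i
      by_cases hi : i < n
      · have h2 := h1 i hi
        by_cases hiS : i ∈ S <;> by_cases hiT : i ∈ T <;> simp [hiS, hiT] at h2 ⊢
      · exact ⟨fun h3 => absurd (mem_range.1 (hS h3)) hi, fun h3 => absurd (mem_range.1 (hT h3)) hi⟩)
  refine ⟨ρ, hρ, fun j hj => ?_⟩
  -- the flip
  let F : Finset ℕ → Finset ℕ := fun T => if j ∈ T then T.erase j else insert j T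
  have hFI : ∀ T ∈ powerset (range n), F T ∈ powerset (range n) := by
    intro T hT
    rw [mem_powerset] at hT ⊢
    show (if j ∈ T then T.erase j else insert j T) ⊆ range n
    split_ifs
    · exact (erase_subset _ _).trans hT
    · exact insert_subset (mem_range.2 hj) hT
  have hFC : ∀ T, C (F T) = c j * C T := by
    intro T
    show ∏ i ∈ (if j ∈ T then T.erase j else insert j T), c i = c j * ∏ i ∈ T, c i
    split_ifs with h
    · rw [← mul_prod_erase T c h, ← mul_assoc, hcsq, one_mul]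
    · rw [prod_insert h]
  have hFq : ∀ T, q (w j) + ∑ i ∈ T, q (w i) = ∑ i ∈ F T, q (w i) := by
    intro T
    show q (w j) + ∑ i ∈ T, q (w i) = ∑ i ∈ (if j ∈ T then T.erase j else insert j T), q (w i)
    split_ifs with h
    · rw [← add_sum_erase T (fun i => q (w i)) h, ← add_assoc, ← two_zsmul, h2q, zero_add]
    · rw [sum_insert h]
  have hcond : ∀ S ∈ powerset (range n), ∀ T ∈ powerset (range n),
      ((W S)⁻¹ * (w j * W T) ∈ kerK K q hq ↔ S = F T) := by
    intro S hS T hT
    rw [mem_kerK (hWK S) (K.mul_mem (hw j) (hWK T)), hq _ (hw j) _ (hWK T), hWq, hWq, hFq]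
    constructor
    · intro h
      have hF := mem_powerset.1 (hFI T hT)
      rw [mem_powerset] at hS
      have h1 := heven (fun i => (if i ∈ F T then (1 : ℤ) else 0) - (if i ∈ S then 1 else 0))
        (by rw [sum_rel hS hF, h, sub_self])
      ext i
      by_cases hi : i < n
      · have h2 := h1 i hi
        by_cases hiS : i ∈ S <;> by_cases hiT : i ∈ F T <;> simp [hiS, hiT] at h2 ⊢
      · exact ⟨fun h3 => absurd (mem_range.1 (hS h3)) hi, fun h3 => absurd (mem_range.1 (hF h3)) hi⟩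
    · rintro rfl
      rfl
  have hsum : ∑ S ∈ powerset (range n), ∑ T ∈ powerset (range n), star (C S) * C T *
      (Set.indicator (kerK K q hq : Set Γ) (fun _ => (1 : ℂ)) ((W S)⁻¹ * (w j * W T))) = 2 ^ n * c j := by
    rw [Finset.sum_comm]
    have h1 : ∀ T ∈ powerset (range n), ∑ S ∈ powerset (range n), star (C S) * C T *
        (Set.indicator (kerK K q hq : Set Γ) (fun _ => (1 : ℂ)) ((W S)⁻¹ * (w j * W T))) = c j := by
      intro T hT
      rw [Finset.sum_eq_single (F T)]
      · rw [Set.indicator_of_mem ((hcond _ (hFI T hT) T hT).2 rfl), mul_one, hCstar, hFC, mul_assoc, hCsq,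
          mul_one]
      · intro S hS hne
        rw [Set.indicator_of_notMem, mul_zero]
        intro h
        exact hne ((hcond S hS T hT).1 h)
      · intro h
        exact absurd (hFI T hT) h
    rw [Finset.sum_congr rfl h1, Finset.sum_const, nsmul_eq_mul, card_powerset, card_range]
    push_cast
    rfl
  rw [hρg, hsum, card_powerset, card_range]
  have h2 : (2 : ℂ) ^ n ≠ 0 := pow_ne_zero _ two_ne_zero
  have h3 : c j * ((((2 ^ n : ℕ) : ℂ))⁻¹ * (2 ^ n * c j)) = 1 := by
    push_cast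
    rw [← mul_assoc ((2 : ℂ) ^ n)⁻¹, inv_mul_cancel₀ h2, one_mul, hcsq]
  rw [h3]
  norm_num

theorem nfr : S_FOL → S_VEC → S_NFR := by
  intro hF hV G A M _ _ _ u τ hu hm K hK q hq n w hw hrel c hc
  exact nf_core u K q hq (get_vec hF hV hu hm hK hq) n w hw hrel c hc

theorem nfr2 : S_FOL → S_VEC → S_NFR2 := by
  intro hF hV G A M _ _ _ u τ hu hm K hK q hq n w hw h2q hrel c hc
  exact nf2_core u K q hq (get_vec hF hV hu hm hK hq) n w hw h2q hrel c hc

end Pool.Agent.P8H78.PR
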